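import Pool.Agent.H98.WG.Final

/-!
# Product inequality for determinants of the diagonal blocks of a Wishart matrix

For all block sizes `p 1, …, p d ≥ 1`, all real `α > p - 1` (`p = ∑ p i`), all positive definite
`Σ` and all real exponents `ν i ≥ 0`, a random matrix `X` with law `W_p(α, Σ)` satisfies
`E (∏ i, |X_ii| ^ ν i) ≥ ∏ i, E (|X_ii| ^ ν i)`.

A symmetric matrix indexed by `ι` is encoded by the vector `x : Sym2 ι → ℝ` of its entries on and
above the diagonal, so that Lebesgue measure `dX` on symmetric matrices is the product Lebesgue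
measure `volume` on `Sym2 ι → ℝ`.
-/

set_option autoImplicit false

namespace Pool.Agent.Results.MP_9d9c13_pr.WishartProduct

open MeasureTheory Matrix

/-- The symmetric matrix whose `(i, j)` entry is `x s(i, j)`. -/
def symMat {ι : Type*} (x : Sym2 ι → ℝ) : Matrix ι ι ℝ := Matrix.of fun i j => x s(i, j)

/-- The cone of positive definite symmetric matrices. -/
def cone (ι : Type*) [Fintype ι] : Set (Sym2 ι → ℝ) := {x | (symMat x).PosDef}

/-- The multivariate gamma function
`Γ_p(β) = ∫_{S_{++}^p} |X| ^ (β - (p + 1) / 2) exp (-tr X) dX`, where `p` is the number of elements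
of `ι`. -/
noncomputable def mvGamma (ι : Type*) [Fintype ι] [DecidableEq ι] (β : ℝ) : ℝ :=
  ∫ x in cone ι, (symMat x).det ^ (β - ((Fintype.card ι : ℝ) + 1) / 2) *
    Real.exp (-(symMat x).trace)

/-- The Wishart density
`f_{α,S}(X) = |X| ^ (α / 2 - (p + 1) / 2) exp (-tr ((S⁻¹ / 2) X)) / (|2 S| ^ (α / 2) Γ_p(α / 2))`. -/
noncomputable def wishartDensity {ι : Type*} [Fintype ι] [DecidableEq ι] (α : ℝ)
    (S X : Matrix ι ι ℝ) : ℝ :=
  X.det ^ (α / 2 - ((Fintype.card ι : ℝ) + 1) / 2) *
      Real.exp (-(((1 / 2 : ℝ) • S⁻¹) * X).trace) /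
    (((2 : ℝ) • S).det ^ (α / 2) * mvGamma ι (α / 2))

/-- The Wishart law `W_p(α, S)`: the measure on the cone of positive definite matrices with density
`f_{α,S}` with respect to Lebesgue measure. -/
noncomputable def wishart {ι : Type*} [Fintype ι] [DecidableEq ι] (α : ℝ) (S : Matrix ι ι ℝ) :
    Measure (Sym2 ι → ℝ) :=
  ((volume : Measure (Sym2 ι → ℝ)).restrict (cone ι)).withDensity
    fun x => ENNReal.ofReal (wishartDensity α S (symMat x))

/-- The `i`-th diagonal block `X_ii`, of size `p i`, of a matrix `X` whose rows and columns are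
indexed by the pairs (block number, position in the block). -/
def block {d : ℕ} {p : Fin d → ℕ} (i : Fin d)
    (X : Matrix ((i : Fin d) × Fin (p i)) ((i : Fin d) × Fin (p i)) ℝ) :
    Matrix (Fin (p i)) (Fin (p i)) ℝ :=
  X.submatrix (fun j => ⟨i, j⟩) (fun j => ⟨i, j⟩)

/-- **Theorem** (product inequality for disjoint principal minors of a Wishart matrix).
For all `d ≥ 1`, `p i ≥ 1`, `p = ∑ i, p i`, all real `α > p - 1`, every positive definite `S` and
all real `ν i ≥ 0`: the Wishart law `W_p(α, S)` is a probability measure for which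
`|X_ii| ^ ν i` and `∏ i, |X_ii| ^ ν i` have finite expectation, and
`∏ i, E (|X_ii| ^ ν i) ≤ E (∏ i, |X_ii| ^ ν i)`. -/
theorem result (d : ℕ) (p : Fin d → ℕ) (hd : 1 ≤ d) (hp : ∀ i, 1 ≤ p i) (α : ℝ)
    (hα : (∑ i, (p i : ℝ)) - 1 < α)
    (S : Matrix ((i : Fin d) × Fin (p i)) ((i : Fin d) × Fin (p i)) ℝ) (hS : S.PosDef)
    (ν : Fin d → ℝ) (hν : ∀ i, 0 ≤ ν i) :
    IsProbabilityMeasure (wishart α S) ∧
    (∀ i, Integrable (fun x => (block i (symMat x)).det ^ ν i) (wishart α S)) ∧
    Integrable (fun x => ∏ i, (block i (symMat x)).det ^ ν i) (wishart α S) ∧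
    ∏ i, ∫ x, (block i (symMat x)).det ^ ν i ∂(wishart α S) ≤
      ∫ x, ∏ i, (block i (symMat x)).det ^ ν i ∂(wishart α S) := by
  obtain ⟨h1, h2⟩ := Pool.Agent.TH435.WG.final_holds d p hd hp α hα S hS
  exact ⟨h1, h2 ν hν⟩

end Pool.Agent.Results.MP_9d9c13_pr.WishartProduct
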